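import Mathlib

set_option autoImplicit false

namespace Pool.Agent.Results.MP_4d2e3d_co.Counter

open Module Submodule

variable (K L : Type) [Field K] [Field L] [Algebra K L]

/-- The three rank rules of a `q`-matroid on the `K`-vector space `E`. -/
def IsQMatroid {E : Type} [AddCommGroup E] [Module K E] (ρ : Submodule K E → ℕ) : Prop :=
  (∀ V, ρ V ≤ finrank K V) ∧ (∀ U V, U ≤ V → ρ U ≤ ρ V) ∧
    ∀ U V, ρ (U ⊔ V) + ρ (U ⊓ V) ≤ ρ U + ρ V

/-- The points of the projective space of `E`: one-dimensional subspaces. -/
abbrev Pt (E : Type) [AddCommGroup E] [Module K E] : Type :=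
  {P : Submodule K E // finrank K P = 1}

/-- The projectivization matroid is isomorphic to the column matroid of a matrix over `L`. -/
def ProjRep {E : Type} [AddCommGroup E] [Module K E] (ρ : Submodule K E → ℕ) : Prop :=
  ∃ (k N : ℕ) (G : Matrix (Fin k) (Fin N) L) (f : Pt K E ≃ Fin N), ∀ A : Finset (Pt K E),
    ρ (⨆ P ∈ A, P.1) = (G.submatrix id (fun a : A => f a.1)).rank

/-- The `q`-matroid is isomorphic to the `q`-matroid of a matrix over `L`. -/
def QRep {E : Type} [AddCommGroup E] [Module K E] (ρ : Submodule K E → ℕ) : Prop :=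
  ∃ (k n : ℕ) (G : Matrix (Fin k) (Fin n) L) (φ : E ≃ₗ[K] (Fin n → K)), ∀ V : Submodule K E,
    ∃ (j : ℕ) (Y : Matrix (Fin n) (Fin j) K), span K (Set.range Y.col) = V.map φ.toLinearMap ∧
      ρ V = (G * Y.map (algebraMap K L)).rank

open Classical in
noncomputable def rho (n : ℕ) (V : Submodule K (Fin n → K)) : ℕ := if V = ⊥ then 0 else 1

theorem isq (n : ℕ) : IsQMatroid K (rho K n) := by
  refine ⟨fun V => ?_, fun U V h => ?_, fun U V => ?_⟩
  · unfold rho
    split_ifs with h
    · exact Nat.zero_le _
    · exact Nat.pos_of_ne_zero fun k => h (Submodule.finrank_eq_zero.1 k)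
  · unfold rho
    split_ifs with h1 h2 h2
    · exact le_rfl
    · exact zero_le_one
    · exact absurd (le_bot_iff.1 (h2 ▸ h)) h1
    · exact le_rfl
  · unfold rho
    by_cases h1 : U = ⊥
    · subst h1; simp
    · by_cases h2 : V = ⊥
      · subst h2; simp
      · rw [if_neg h1, if_neg h2]
        split_ifs <;> omega

theorem proj [Finite K] (n : ℕ) : ProjRep K L (rho K n) := by
  classical
  have : Finite (Submodule K (Fin n → K)) :=
    Finite.of_injective _ (SetLike.coe_injective (A := Submodule K (Fin n → K)))
  have := Fintype.ofFinite (Pt K (Fin n → K))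
  refine ⟨1, _, Matrix.of fun _ _ => 1, Fintype.equivFin _, fun A => ?_⟩
  rcases A.eq_empty_or_nonempty with rfl | ⟨P, hP⟩
  · have h := Matrix.rank_le_card_width
      ((Matrix.of fun _ _ => (1 : L) : Matrix (Fin 1) _ L).submatrix id
        (fun a : (∅ : Finset (Pt K (Fin n → K))) => Fintype.equivFin _ a.1))
    simp only [Finset.notMem_empty, not_false_eq_true, iSup_neg, iSup_bot, rho, if_true]
    simpa using h.antisymm' (by simp)
  · have h1 : (⨆ P ∈ A, P.1) ≠ ⊥ := by
      intro h
      have : P.1 ≤ ⊥ := h ▸ le_iSup₂_of_le (f := fun (P : Pt K (Fin n → K)) (_ : P ∈ A) => P.1) P hP le_rfl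
      have h2 := P.2
      rw [le_bot_iff.1 this] at h2
      simp at h2
    rw [rho, if_neg h1]
    apply le_antisymm
    · rw [Matrix.rank_eq_finrank_span_cols]
      refine Nat.pos_of_ne_zero fun k => ?_
      rw [Submodule.finrank_eq_zero, span_eq_bot] at k
      have := congrFun (k _ ⟨⟨P, hP⟩, rfl⟩) 0
      simp at this
    · exact (Matrix.rank_le_card_height _).trans (by simp)

theorem nq [Finite L] : ¬ QRep K L (rho K (finrank K L + 1)) := by
  rintro ⟨k, n, G, φ, h⟩
  have hn : n = finrank K L + 1 := by simpa using φ.finrank_eq.symm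
  let ψ : (Fin n → K) →ₗ[K] (Fin k → L) :=
    { toFun := fun v => G.mulVec (fun i => algebraMap K L (v i))
      map_add' := fun u v => by
        rw [← Matrix.mulVec_add]; congr 1; funext i; simp
      map_smul' := fun c v => by
        funext a
        simp [Matrix.mulVec, dotProduct, Finset.mul_sum, Algebra.smul_def, mul_left_comm] }
  have hcol : ∀ (j : ℕ) (Y : Matrix (Fin n) (Fin j) K) (a : Fin j),
      (G * Y.map (algebraMap K L)).col a = ψ (Y.col a) := by
    intro j Y a
    funext b
    simp [ψ, Matrix.mul_apply, Matrix.mulVec, dotProduct]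
  have hinj : Function.Injective ψ := by
    rw [injective_iff_map_eq_zero]
    intro v hv
    by_contra hv0
    obtain ⟨j, Y, h1, h2⟩ := h (span K {φ.symm v})
    have h3 : G * Y.map (algebraMap K L) = 0 := by
      ext b a
      have hm : Y.col a ∈ span K (Set.range Y.col) := subset_span ⟨a, rfl⟩
      rw [h1, map_span, Set.image_singleton, mem_span_singleton] at hm
      obtain ⟨c, hc⟩ := hm
      have := congrFun (hcol j Y a) b
      rw [← hc, map_smul] at this
      simpa [hv] using this
    rw [h3, Matrix.rank_zero, rho, if_neg (by simpa using hv0)] at h2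
    exact one_ne_zero h2
  obtain ⟨j, Y, h1, h2⟩ := h ⊤
  rw [rho, if_neg top_ne_bot, Matrix.rank_eq_finrank_span_cols] at h2
  set W := span L (Set.range (G * Y.map (algebraMap K L)).col) with hW
  have hm : ∀ v, ψ v ∈ W.restrictScalars K := by
    intro v
    have : v ∈ span K (Set.range Y.col) := by
      rw [h1]; exact ⟨φ.symm v, trivial, by simp⟩
    have h4 : span K (Set.range Y.col) ≤ (W.restrictScalars K).comap ψ := by
      rw [span_le]
      rintro _ ⟨a, rfl⟩
      exact subset_span ⟨a, hcol j Y a⟩
    exact h4 this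
  have : Finite (W.restrictScalars K) := inferInstance
  have h5 := LinearMap.finrank_le_finrank_of_injective
    (f := ψ.codRestrict _ hm) (fun a b e => hinj (congrArg Subtype.val e))
  have h6 : finrank K (W.restrictScalars K) = finrank K W := rfl
  rw [h6, ← Module.finrank_mul_finrank K L W, ← h2] at h5
  simp only [finrank_fintype_fun_eq_card, Fintype.card_fin] at h5
  omega

/-- For every finite field extension `L / K` there is a `q`-matroid over `K` that is not
`L`-representable although its projectivization matroid is. -/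
theorem result (K L : Type) [Field K] [Field L] [Algebra K L] [Finite K] [Finite L] :
    ∃ (n : ℕ) (ρ : Submodule K (Fin n → K) → ℕ),
      IsQMatroid K ρ ∧ ProjRep K L ρ ∧ ¬ QRep K L ρ :=
  ⟨_, _, isq K _, proj K L _, nq K L⟩

end Pool.Agent.Results.MP_4d2e3d_co.Counter
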